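import Mathlib

/-!
# Self-referencing Lempel-Ziv factorizations: suffixes need at most quadratically more factors

`zs S` is the number of factors of the self-referencing LZ77 factorization of `S`.  We show
`zs (S.drop j) ≤ 37 (zs S)^2` for every string `S` over every alphabet and every `j`, which settles
the question (the answer is yes, with a polynomial bound of degree two).

Proof. Strings are represented by trees with three kinds of nodes: letters, concatenations and
*runs* `s x^e p`.  Every suffix and every prefix of the string of a tree `t` of height `h` is the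
string of a tree of height at most `h` which has at most `h + 1` subtrees which are not subtrees of
`t`.  A factor of the factorization of `S` is `x^e x' c`, where `x` is a suffix of the part of `S`
before the factor, `x'` a prefix of `x` and `c` a letter.  So, adding one factor after the other, one
obtains a tree for `S` of height at most `2 z` with at most `2 z^2 + 3 z + 1` different subtrees,
`z = zs S`, and then a tree for the suffix.  On the other hand, if a string is given by a tree with
`N` different subtrees, it can be cut into at most `4 N + 1` pieces each of which is a letter or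
has an occurrence which starts further to the left; and the greedy factorization is at least as
short.
-/

set_option autoImplicit false

namespace Pool.Agent.Results.MP_37e11d_lc.SuffixSquareBound

/-! ### the definitions -/

/-- The prefix of length `m` of the suffix of `S` starting at position `u` has an occurrence in `S`
which starts at a position `j < u` (positions are counted from `0`; the occurrence may overlap
the position `u`). -/
def OccursBefore {α : Type} (S : List α) (u m : ℕ) : Prop :=
  ∃ j < u, (S.drop u).take m <+: S.drop j

/-- The length of the factor which starts at position `u`: the shortest prefix of the suffix of `S`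
starting at `u` without an occurrence which starts before `u`, or the whole suffix if there
is no such prefix. -/
noncomputable def factorLength {α : Type} (S : List α) (u : ℕ) : ℕ :=
  sInf {m : ℕ | 1 ≤ m ∧ (m = S.length - u ∨ ¬ OccursBefore S u m)}

lemma factorLength_mem {α : Type} {S : List α} {u : ℕ} (hu : u < S.length) :
    factorLength S u ∈ {m : ℕ | 1 ≤ m ∧ (m = S.length - u ∨ ¬ OccursBefore S u m)} :=
  Nat.sInf_mem ⟨S.length - u, by omega, Or.inl rfl⟩

lemma factorLength_pos {α : Type} {S : List α} {u : ℕ} (hu : u < S.length) :
    1 ≤ factorLength S u := (factorLength_mem hu).1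

/-- The self-referencing LZ77 factorization of the suffix of `S` which starts at position `u`, a
position where a factor of `S` starts: the list of the factors. -/
noncomputable def factorsFrom {α : Type} (S : List α) (u : ℕ) : List (List α) :=
  if h : u < S.length then
    (S.drop u).take (factorLength S u) :: factorsFrom S (u + factorLength S u)
  else []
termination_by S.length - u
decreasing_by
  have := factorLength_pos h
  omega

/-- `zs S`: the number of factors of the self-referencing LZ77 factorization of `S`. -/
noncomputable def zs {α : Type} (S : List α) : ℕ := (factorsFrom S 0).length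

/-! ### trees -/

/-- trees for strings -/
inductive Tr (α : Type) : Type
  | nil : Tr α
  | one : α → Tr α
  | node : Tr α → Tr α → Tr α
  | run : Tr α → Tr α → ℕ → Tr α → Tr α

namespace Tr

variable {α : Type}

/-- powers of strings -/
def pw (x : List α) : ℕ → List α
  | 0 => []
  | e + 1 => x ++ pw x e

lemma pw_succ' (x : List α) (e : ℕ) : pw x (e + 1) = pw x e ++ x := by
  induction e with
  | zero => simp [pw]
  | succ e ih =>
    change x ++ pw x (e + 1) = x ++ pw x e ++ x
    rw [ih, List.append_assoc]

lemma pw_reverse (x : List α) (e : ℕ) : (pw x e).reverse = pw x.reverse e := by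
  induction e with
  | zero => rfl
  | succ e ih =>
    rw [pw_succ']
    change (pw x e ++ x).reverse = x.reverse ++ pw x.reverse e
    rw [List.reverse_append, ih]

/-- the string of a tree -/
def str : Tr α → List α
  | nil => []
  | one a => [a]
  | node l r => str l ++ str r
  | run s x e p => str s ++ (pw (str x) e ++ str p)

/-- the height -/
def ht : Tr α → ℕ
  | nil => 0
  | one _ => 0
  | node l r => max (ht l) (ht r) + 1
  | run s x _ p => max (ht s) (max (ht x) (ht p)) + 1

open Classical in
/-- the set of the subtrees -/
noncomputable def sub : Tr α → Finset (Tr α)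
  | nil => {nil}
  | one a => {one a}
  | node l r => insert (node l r) (sub l ∪ sub r)
  | run s x e p => insert (run s x e p) (sub s ∪ (sub x ∪ sub p))

lemma self_mem_sub (t : Tr α) : t ∈ sub t := by
  cases t <;> simp [sub]

lemma ht_le_of_mem {t s : Tr α} (h : s ∈ sub t) : ht s ≤ ht t := by
  classical
  induction t with
  | nil => simp [sub] at h; rw [h]
  | one a => simp [sub] at h; rw [h]
  | node l r ihl ihr =>
    rw [sub, Finset.mem_insert, Finset.mem_union] at h
    rcases h with rfl | h | h
    · exact le_rfl
    · have := ihl h
      simp only [ht]; omega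
    · have := ihr h
      simp only [ht]; omega
  | run s x e p ihs ihx ihp =>
    rw [sub, Finset.mem_insert, Finset.mem_union, Finset.mem_union] at h
    rcases h with rfl | h | h | h
    · exact le_rfl
    · have := ihs h
      simp only [ht]; omega
    · have := ihx h
      simp only [ht]; omega
    · have := ihp h
      simp only [ht]; omega

/-! ### suffixes and prefixes -/

lemma suffix_pw (x p u : List α) (e : ℕ) (h : u <:+ pw x e ++ p) :
    u <:+ p ∨ ∃ e' u', u' <:+ x ∧ u = u' ++ (pw x e' ++ p) := by
  induction e with
  | zero => exact Or.inl h
  | succ e ih =>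
    obtain ⟨w, hw⟩ := h
    change w ++ u = x ++ pw x e ++ p at hw
    rw [List.append_assoc] at hw
    rcases List.append_eq_append_iff.1 hw with ⟨c, h1, h2⟩ | ⟨c, h1, h2⟩
    · exact Or.inr ⟨e, c, ⟨w, h1.symm⟩, h2⟩
    · exact ih ⟨c, h2.symm⟩

open Classical in
/-- Suffixes of the string of a tree. -/
theorem exists_suffix (t : Tr α) : ∀ u : List α, u <:+ str t →
    ∃ (t' : Tr α) (N : Finset (Tr α)), str t' = u ∧ ht t' ≤ ht t ∧ sub t' ⊆ sub t ∪ N ∧
      N.card ≤ ht t + 1 := by
  induction t with
  | nil =>
    intro u hu
    have : u = [] := List.suffix_nil.1 hu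
    subst this
    exact ⟨nil, ∅, rfl, le_rfl, by simp, by simp⟩
  | one a =>
    intro u hu
    rcases List.suffix_cons_iff.1 hu with h | h
    · subst h
      exact ⟨one a, ∅, rfl, le_rfl, by simp, by simp⟩
    · have : u = [] := List.suffix_nil.1 h
      subst this
      exact ⟨nil, {nil}, rfl, le_rfl, by simp [sub], by simp⟩
  | node l r ihl ihr =>
    rintro u ⟨w, hw⟩
    change w ++ u = str l ++ str r at hw
    rcases List.append_eq_append_iff.1 hw with ⟨c, h1, h2⟩ | ⟨c, h1, h2⟩
    · obtain ⟨t', N, h3, h4, h5, h6⟩ := ihl c ⟨w, h1.symm⟩
      refine ⟨node t' r, insert (node t' r) N, ?_, ?_, ?_, ?_⟩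
      · change str t' ++ str r = u
        rw [h3, h2]
      · simp only [ht]; omega
      · intro y hy
        rw [sub, Finset.mem_insert, Finset.mem_union] at hy
        simp only [Finset.mem_union, Finset.mem_insert, sub]
        rcases hy with h | h | h
        · exact Or.inr (Or.inl h)
        · rcases Finset.mem_union.1 (h5 h) with h | h
          · exact Or.inl (Or.inr (Or.inl h))
          · exact Or.inr (Or.inr h)
        · exact Or.inl (Or.inr (Or.inr h))
      · have := Finset.card_insert_le (node t' r) N
        simp only [ht]; omega
    · obtain ⟨t', N, h3, h4, h5, h6⟩ := ihr u ⟨c, h2.symm⟩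
      refine ⟨t', N, h3, ?_, ?_, ?_⟩
      · simp only [ht]; omega
      · intro y hy
        simp only [Finset.mem_union, Finset.mem_insert, sub]
        rcases Finset.mem_union.1 (h5 hy) with h | h
        · exact Or.inl (Or.inr (Or.inr h))
        · exact Or.inr h
      · simp only [ht]; omega
  | run s x e p ihs ihx ihp =>
    rintro u ⟨w, hw⟩
    change w ++ u = str s ++ (pw (str x) e ++ str p) at hw
    rcases List.append_eq_append_iff.1 hw with ⟨c, h1, h2⟩ | ⟨c, h1, h2⟩
    · obtain ⟨t', N, h3, h4, h5, h6⟩ := ihs c ⟨w, h1.symm⟩
      refine ⟨run t' x e p, insert (run t' x e p) N, ?_, ?_, ?_, ?_⟩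
      · change str t' ++ (pw (str x) e ++ str p) = u
        rw [h3, h2]
      · simp only [ht]; omega
      · intro y hy
        rw [sub, Finset.mem_insert, Finset.mem_union, Finset.mem_union] at hy
        simp only [Finset.mem_union, Finset.mem_insert, sub]
        rcases hy with h | h | h
        · exact Or.inr (Or.inl h)
        · rcases Finset.mem_union.1 (h5 h) with h | h
          · exact Or.inl (Or.inr (Or.inl h))
          · exact Or.inr (Or.inr h)
        · exact Or.inl (Or.inr (Or.inr h))
      · have := Finset.card_insert_le (run t' x e p) N
        simp only [ht]; omega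
    · rcases suffix_pw (str x) (str p) u e ⟨c, h2.symm⟩ with h | ⟨e', u', h, h7⟩
      · obtain ⟨t', N, h3, h4, h5, h6⟩ := ihp u h
        refine ⟨t', N, h3, ?_, ?_, ?_⟩
        · simp only [ht]; omega
        · intro y hy
          simp only [Finset.mem_union, Finset.mem_insert, sub]
          rcases Finset.mem_union.1 (h5 hy) with h | h
          · exact Or.inl (Or.inr (Or.inr (Or.inr h)))
          · exact Or.inr h
        · simp only [ht]; omega
      · obtain ⟨t', N, h3, h4, h5, h6⟩ := ihx u' h
        refine ⟨run t' x e' p, insert (run t' x e' p) N, ?_, ?_, ?_, ?_⟩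
        · change str t' ++ (pw (str x) e' ++ str p) = u
          rw [h3, h7]
        · simp only [ht]; omega
        · intro y hy
          rw [sub, Finset.mem_insert, Finset.mem_union, Finset.mem_union] at hy
          simp only [Finset.mem_union, Finset.mem_insert, sub]
          rcases hy with h | h | h | h
          · exact Or.inr (Or.inl h)
          · rcases Finset.mem_union.1 (h5 h) with h | h
            · exact Or.inl (Or.inr (Or.inr (Or.inl h)))
            · exact Or.inr (Or.inr h)
          · exact Or.inl (Or.inr (Or.inr (Or.inl h)))
          · exact Or.inl (Or.inr (Or.inr (Or.inr h)))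
        · have := Finset.card_insert_le (run t' x e' p) N
          simp only [ht]; omega

/-- the mirror image -/
def rv : Tr α → Tr α
  | nil => nil
  | one a => one a
  | node l r => node (rv r) (rv l)
  | run s x e p => run (rv p) (rv x) e (rv s)

lemma rv_rv (t : Tr α) : rv (rv t) = t := by
  induction t with
  | nil => rfl
  | one a => rfl
  | node l r ihl ihr => simp only [rv, ihl, ihr]
  | run s x e p ihs ihx ihp => simp only [rv, ihs, ihx, ihp]

lemma str_rv (t : Tr α) : str (rv t) = (str t).reverse := by
  induction t with
  | nil => rfl
  | one a => rfl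
  | node l r ihl ihr => simp only [rv, str, ihl, ihr, List.reverse_append]
  | run s x e p ihs ihx ihp =>
    simp only [rv, str, ihs, ihx, ihp, List.reverse_append, pw_reverse, List.append_assoc]

lemma ht_rv (t : Tr α) : ht (rv t) = ht t := by
  induction t with
  | nil => rfl
  | one a => rfl
  | node l r ihl ihr => simp only [rv, ht, ihl, ihr]; omega
  | run s x e p ihs ihx ihp => simp only [rv, ht, ihs, ihx, ihp]; omega

lemma mem_sub_rv (t : Tr α) : ∀ y, y ∈ sub (rv t) ↔ rv y ∈ sub t := by
  classical
  have hi : ∀ a b : Tr α, rv a = b ↔ a = rv b := fun a b =>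
    ⟨fun h => by rw [← h, rv_rv], fun h => by rw [h, rv_rv]⟩
  induction t with
  | nil => intro y; simp only [rv, sub, Finset.mem_singleton, hi]
  | one a => intro y; simp only [rv, sub, Finset.mem_singleton, hi]
  | node l r ihl ihr =>
    intro y
    simp only [rv, sub, Finset.mem_insert, Finset.mem_union, ihl, ihr, hi]
    tauto
  | run s x e p ihs ihx ihp =>
    intro y
    simp only [rv, sub, Finset.mem_insert, Finset.mem_union, ihs, ihx, ihp, hi]
    tauto

open Classical in
/-- Prefixes of the string of a tree. -/
theorem exists_prefix (t : Tr α) (u : List α) (hu : u <+: str t) :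
    ∃ (t' : Tr α) (N : Finset (Tr α)), str t' = u ∧ ht t' ≤ ht t ∧ sub t' ⊆ sub t ∪ N ∧
      N.card ≤ ht t + 1 := by
  obtain ⟨t', N, h1, h2, h3, h4⟩ := exists_suffix (rv t) u.reverse (by
    rw [str_rv]
    exact List.reverse_suffix.2 hu)
  rw [ht_rv] at h2 h4
  refine ⟨rv t', N.image rv, ?_, ?_, ?_, ?_⟩
  · rw [str_rv, h1, List.reverse_reverse]
  · rw [ht_rv]; exact h2
  · intro y hy
    rw [mem_sub_rv] at hy
    rcases Finset.mem_union.1 (h3 hy) with h | h
    · rw [mem_sub_rv, rv_rv] at h
      exact Finset.mem_union_left _ h
    · refine Finset.mem_union_right _ (Finset.mem_image.2 ⟨_, h, rv_rv y⟩)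
  · exact Finset.card_image_le.trans h4

end Tr

open Tr

/-! ### from the factorization to a tree -/

variable {α : Type}

lemma periodic (x y : List α) (hx : x ≠ []) : ∀ g : List α, g <+: y → g <+: x ++ y →
    ∃ e x', x' <+: x ∧ g = pw x e ++ x' := by
  intro g
  induction hn : g.length using Nat.strong_induction_on generalizing g with
  | _ n ih =>
    intro h1 h2
    rcases le_total g.length x.length with h | h
    · exact ⟨0, g, List.prefix_of_prefix_length_le h2 (List.prefix_append x y) h, rfl⟩
    · obtain ⟨g1, rfl⟩ := List.prefix_of_prefix_length_le (List.prefix_append x y) h2 h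
      have h3 : g1 <+: y := (List.prefix_append_right_inj x).1 h2
      have h4 : g1 <+: x ++ g1 := List.prefix_of_prefix_length_le h3 h1 (by simp)
      have h5 : g1 <+: x ++ y := h4.trans ((List.prefix_append_right_inj x).2 h3)
      have hxl : 0 < x.length := List.length_pos_of_ne_nil hx
      obtain ⟨e, x', h6, h7⟩ := ih g1.length (by rw [← hn, List.length_append]; omega) g1 rfl h3 h5
      exact ⟨e + 1, x', h6, by rw [h7]; simp [pw]⟩

/-- bound for the number of subtrees after `k` factors -/
def bd (k : ℕ) : ℕ := 2 * k ^ 2 + 3 * k + 1

lemma factorsFrom_of_lt {S : List α} {u : ℕ} (h : u < S.length) : factorsFrom S u =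
    (S.drop u).take (factorLength S u) :: factorsFrom S (u + factorLength S u) := by
  rw [factorsFrom, dif_pos h]

lemma factorsFrom_of_ge {S : List α} {u : ℕ} (h : S.length ≤ u) : factorsFrom S u = [] := by
  rw [factorsFrom, dif_neg (by omega)]

lemma factorLength_le {S : List α} {u : ℕ} (hu : u < S.length) :
    factorLength S u ≤ S.length - u :=
  Nat.sInf_le ⟨by omega, Or.inl rfl⟩

open Classical in
lemma add_factor {S : List α} {u : ℕ} (hu : u < S.length) (t : Tr α) (k : ℕ)
    (h1 : str t = S.take u) (h2 : ht t ≤ 2 * k) (h3 : (sub t).card ≤ bd k) :
    ∃ t' : Tr α, str t' = S.take (u + factorLength S u) ∧ ht t' ≤ 2 * (k + 1) ∧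
      (sub t').card ≤ bd (k + 1) := by
  have hpos := factorLength_pos hu
  have hle := factorLength_le hu
  obtain ⟨m, hm⟩ : ∃ m, factorLength S u = m + 1 := ⟨factorLength S u - 1, by omega⟩
  rw [hm] at hle
  have hum : u + m < S.length := by omega
  have hg : S.take (u + factorLength S u) = S.take u ++ ((S.drop u).take m ++ [S[u + m]]) := by
    rw [hm, ← add_assoc, ← List.take_append_getElem hum, List.take_add, List.append_assoc]
  rw [hg]
  generalize S[u + m] = c
  have key : (S.drop u).take m = [] ∨ ∃ (x : List α) (e : ℕ) (x' : List α), x <:+ S.take u ∧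
      x' <+: x ∧ (S.drop u).take m = pw x e ++ x' := by
    rcases Nat.eq_zero_or_pos m with h0 | h0
    · left; rw [h0, List.take_zero]
    · right
      have h4 : OccursBefore S u m := by
        by_contra h5
        have : factorLength S u ≤ m := Nat.sInf_le ⟨h0, Or.inr h5⟩
        omega
      obtain ⟨j, hj, h5⟩ := h4
      have h6 : S.drop j = (S.take u).drop j ++ S.drop u := by
        conv_lhs => rw [← List.take_append_drop u S]
        rw [List.drop_append_of_le_length (by rw [List.length_take]; omega)]
      rw [h6] at h5
      obtain ⟨e, x', h7, h8⟩ := periodic ((S.take u).drop j) (S.drop u) (by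
        intro h
        have := congrArg List.length h
        rw [List.length_drop, List.length_take, List.length_nil] at this
        omega) _ (List.take_prefix m _) h5
      exact ⟨_, e, x', List.drop_suffix _ _, h7, h8⟩
  rcases key with h0 | ⟨x, e, x', h4, h5, h6⟩
  · rw [h0, List.nil_append]
    refine ⟨node t (one c), ?_, ?_, ?_⟩
    · change str t ++ [c] = _
      rw [h1]
    · simp only [ht]; omega
    · rw [sub, sub]
      have e1 := Finset.card_insert_le (node t (one c)) (sub t ∪ {one c})
      have e2 := Finset.card_union_le (sub t) {one c}
      rw [Finset.card_singleton] at e2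
      unfold bd at *
      nlinarith
  · rw [← h1] at h4
    obtain ⟨tx, N1, a1, a2, a3, a4⟩ := exists_suffix t x h4
    rw [← a1] at h5
    obtain ⟨tp, N2, b1, b2, b3, b4⟩ := exists_prefix tx x' h5
    refine ⟨run t tx e (node tp (one c)), ?_, ?_, ?_⟩
    · change str t ++ (pw (str tx) e ++ (str tp ++ [c])) = _
      rw [h1, a1, b1, h6]
      simp only [List.append_assoc]
    · simp only [ht]; omega
    · have hsub : sub (run t tx e (node tp (one c))) ⊆ sub t ∪ (N1 ∪ (N2 ∪
          {run t tx e (node tp (one c)), node tp (one c), one c})) := by
        intro y hy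
        simp only [sub, Finset.mem_insert, Finset.mem_union, Finset.mem_singleton] at hy
        simp only [Finset.mem_insert, Finset.mem_union, Finset.mem_singleton]
        rcases hy with h | h | h | h | h | h
        · tauto
        · tauto
        · rcases Finset.mem_union.1 (a3 h) with h | h <;> tauto
        · tauto
        · rcases Finset.mem_union.1 (b3 h) with h | h
          · rcases Finset.mem_union.1 (a3 h) with h | h <;> tauto
          · tauto
        · tauto
      have e1 := Finset.card_le_card hsub
      have e2 := Finset.card_union_le (sub t) (N1 ∪ (N2 ∪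
          {run t tx e (node tp (one c)), node tp (one c), one c}))
      have e3 := Finset.card_union_le N1 (N2 ∪
          {run t tx e (node tp (one c)), node tp (one c), one c})
      have e4 := Finset.card_union_le N2
          {run t tx e (node tp (one c)), node tp (one c), one c}
      have e5 : ({run t tx e (node tp (one c)), node tp (one c), one c} : Finset (Tr α)).card ≤ 3 :=
        Finset.card_le_three
      unfold bd at *
      nlinarith

theorem exists_tree (S : List α) : ∀ (n u : ℕ), S.length - u = n → u ≤ S.length →
    ∀ (t : Tr α) (k : ℕ), str t = S.take u → ht t ≤ 2 * k → (sub t).card ≤ bd k →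
    ∃ t' : Tr α, str t' = S ∧ ht t' ≤ 2 * (k + (factorsFrom S u).length) ∧
      (sub t').card ≤ bd (k + (factorsFrom S u).length) := by
  intro n
  induction n using Nat.strong_induction_on with
  | _ n ih =>
    intro u hn hu t k h1 h2 h3
    rcases hu.lt_or_eq with h | h
    · obtain ⟨t1, a1, a2, a3⟩ := add_factor h t k h1 h2 h3
      have hp := factorLength_pos h
      have hl := factorLength_le h
      obtain ⟨t2, b1, b2, b3⟩ := ih (S.length - (u + factorLength S u)) (by omega)
        (u + factorLength S u) rfl (by omega) t1 (k + 1) a1 a2 a3
      rw [factorsFrom_of_lt h, List.length_cons]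
      have e : k + ((factorsFrom S (u + factorLength S u)).length + 1) =
          k + 1 + (factorsFrom S (u + factorLength S u)).length := by omega
      rw [e]
      exact ⟨t2, b1, b2, b3⟩
    · rw [factorsFrom_of_ge h.ge]
      refine ⟨t, ?_, ?_, ?_⟩
      · rw [h1, h, List.take_length]
      · simpa using h2
      · simpa using h3

/-! ### cutting a string into pieces -/

/-- The interval `[b, c)` of `T` is a piece: it has length at most one or an occurrence which
starts before `b`. -/
def Good (T : List α) (b c : ℕ) : Prop :=
  b ≤ c ∧ c ≤ T.length ∧ (c ≤ b + 1 ∨ ∃ j < b, (T.drop b).take (c - b) <+: T.drop j)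

/-- `[a, b)` can be cut into `r` pieces -/
inductive Path (T : List α) : ℕ → ℕ → ℕ → Prop
  | refl (a : ℕ) : Path T a a 0
  | cons (a b c r : ℕ) : Good T a b → Path T b c r → Path T a c (r + 1)

lemma Path.trans {T : List α} {a b c r s : ℕ} (h : Path T a b r) (h' : Path T b c s) :
    Path T a c (r + s) := by
  induction h with
  | refl a => simpa using h'
  | cons a b _ r hg _ ih =>
    have := Path.cons a b c _ hg (ih h')
    rwa [show r + s + 1 = r + 1 + s by omega] at this

lemma Path.one {T : List α} {a b : ℕ} (h : Good T a b) : Path T a b 1 :=
  Path.cons a b b 0 h (Path.refl b)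

/-- The greedy factorization is optimal. -/
theorem greedy {T : List α} {b c r : ℕ} (h : Path T b c r) (hc : c = T.length) :
    ∀ u, b ≤ u → u ≤ T.length → (factorsFrom T u).length ≤ r := by
  induction h with
  | refl a =>
    intro u h1 h2
    rw [factorsFrom_of_ge (by omega)]
    exact le_rfl
  | cons a b c r hg _ ih =>
    intro u h1 h2
    rcases le_or_gt b u with h | h
    · exact (ih hc u h h2).trans (Nat.le_succ r)
    · obtain ⟨g1, g2, g3⟩ := hg
      have hu : u < T.length := by omega
      rw [factorsFrom_of_lt hu, List.length_cons]
      have hp := factorLength_pos hu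
      have hl := factorLength_le hu
      apply Nat.succ_le_succ
      apply ih hc _ _ (by omega)
      rcases g3 with g3 | ⟨j, hj, g3⟩
      · omega
      · by_contra hlt
        push Not at hlt
        rcases (factorLength_mem hu).2 with h5 | h5
        · omega
        · apply h5
          refine ⟨j + (u - a), by omega, ?_⟩
          have e1 : (T.drop u).take (factorLength T u) =
              ((T.drop a).drop (u - a)).take (factorLength T u) := by
            rw [List.drop_drop]
            congr 2
            omega
          have e2 : T.drop (j + (u - a)) = (T.drop j).drop (u - a) := by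
            rw [List.drop_drop]
          rw [e1, e2]
          obtain ⟨w, hw⟩ := g3
          rw [← hw]
          have h6 : u - a ≤ ((T.drop a).take (b - a)).length := by
            rw [List.length_take, List.length_drop]
            omega
          rw [List.drop_append_of_le_length h6, List.drop_take]
          refine List.IsPrefix.trans ?_ (List.prefix_append _ _)
          apply List.take_prefix_take_left
          omega

/-- the tree is known at the position `b` -/
def Known (T : List α) (b : ℕ) (v : Tr α) : Prop :=
  str v = [] ∨ ∃ j < b, str v <+: T.drop j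

lemma Known.mono {T : List α} {b c : ℕ} (h : b ≤ c) {v : Tr α} (hv : Known T b v) :
    Known T c v := by
  rcases hv with hv | ⟨j, hj, hv⟩
  · exact Or.inl hv
  · exact Or.inr ⟨j, by omega, hv⟩

lemma good_of_prefix {T : List α} {b j : ℕ} {w : List α} (hj : j < b) (h1 : w <+: T.drop j)
    (h2 : w <+: T.drop b) (hb : b ≤ T.length) : Good T b (b + w.length) := by
  have h3 := h2.length_le
  rw [List.length_drop] at h3
  refine ⟨by omega, by omega, Or.inr ⟨j, hj, ?_⟩⟩
  rw [Nat.add_sub_cancel_left, ← List.prefix_iff_eq_take.1 h2]
  exact h1

lemma prefix_split {T : List α} {b : ℕ} {w w' : List α} (h : w ++ w' <+: T.drop b) :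
    w <+: T.drop b ∧ w' <+: T.drop (b + w.length) := by
  refine ⟨(List.prefix_append w w').trans h, ?_⟩
  obtain ⟨v, hv⟩ := h
  rw [← List.drop_drop, ← hv, List.append_assoc, List.drop_left]
  exact List.prefix_append w' v

open Classical in
/-- A tree with few subtrees can be cut into few pieces. -/
theorem cut (T : List α) (t : Tr α) : ∀ (V : Finset (Tr α)) (b : ℕ), b ≤ T.length →
    (∀ v ∈ V, Known T b v) → str t <+: T.drop b →
    ∃ (V' : Finset (Tr α)) (r : ℕ), V ⊆ V' ∧ V' ⊆ V ∪ sub t ∧ t ∈ V' ∧
      (∀ v ∈ V', Known T (b + (str t).length) v) ∧ Path T b (b + (str t).length) r ∧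
      r + 4 * V.card ≤ 1 + 4 * V'.card := by
  have hknown : ∀ (t : Tr α) (b : ℕ), str t <+: T.drop b → Known T (b + (str t).length) t := by
    intro t b h
    rcases List.eq_nil_or_concat (str t) with h0 | ⟨_, _, h0⟩
    · exact Or.inl h0
    · refine Or.inr ⟨b, ?_, h⟩
      rw [h0]
      simp
  -- trees which are already known, and letters
  have hin : ∀ (t : Tr α) (V : Finset (Tr α)) (b : ℕ), b ≤ T.length →
      (∀ v ∈ V, Known T b v) → str t <+: T.drop b → t ∈ V →
      ∃ (V' : Finset (Tr α)) (r : ℕ), V ⊆ V' ∧ V' ⊆ V ∪ sub t ∧ t ∈ V' ∧
      (∀ v ∈ V', Known T (b + (str t).length) v) ∧ Path T b (b + (str t).length) r ∧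
      r + 4 * V.card ≤ 1 + 4 * V'.card := by
    intro t V b hb hV h ht
    refine ⟨V, 1, Finset.Subset.refl _, Finset.subset_union_left, ht,
      fun v hv => (hV v hv).mono (by omega), Path.one ?_, by omega⟩
    rcases hV t ht with h0 | ⟨j, hj, h0⟩
    · rw [h0]
      exact ⟨by simp, by simpa using hb, Or.inl (by simp)⟩
    · exact good_of_prefix hj h0 h hb
  induction t with
  | nil =>
    intro V b hb hV h
    refine ⟨insert nil V, 0, Finset.subset_insert _ _, ?_, Finset.mem_insert_self _ _, ?_, ?_, ?_⟩
    · intro y hy
      rcases Finset.mem_insert.1 hy with rfl | hy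
      · exact Finset.mem_union_right _ (self_mem_sub _)
      · exact Finset.mem_union_left _ hy
    · intro v hv
      rcases Finset.mem_insert.1 hv with rfl | hv
      · exact Or.inl rfl
      · exact (hV v hv).mono (by omega)
    · exact Path.refl b
    · have := Finset.card_le_card (Finset.subset_insert (nil : Tr α) V)
      omega
  | one a =>
    intro V b hb hV h
    have h3 := h.length_le
    rw [List.length_drop] at h3
    change 1 ≤ T.length - b at h3
    refine ⟨insert (one a) V, 1, Finset.subset_insert _ _, ?_, Finset.mem_insert_self _ _, ?_, ?_, ?_⟩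
    · intro y hy
      rcases Finset.mem_insert.1 hy with rfl | hy
      · exact Finset.mem_union_right _ (self_mem_sub _)
      · exact Finset.mem_union_left _ hy
    · intro v hv
      rcases Finset.mem_insert.1 hv with rfl | hv
      · exact hknown _ b h
      · exact (hV v hv).mono (by omega)
    · refine Path.one ⟨by omega, ?_, Or.inl ?_⟩
      · change b + 1 ≤ T.length
        omega
      · change b + 1 ≤ b + 1
        exact le_rfl
    · have := Finset.card_le_card (Finset.subset_insert (one a) V)
      omega
  | node l r ihl ihr =>
    intro V b hb hV h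
    by_cases ht : node l r ∈ V
    · exact hin _ V b hb hV h ht
    obtain ⟨p1, p2⟩ := prefix_split (w := str l) (w' := str r) h
    have hb1 : b + (str l).length ≤ T.length := by
      have := p1.length_le
      rw [List.length_drop] at this
      omega
    obtain ⟨V1, r1, a1, a2, a3, a4, a5, a6⟩ := ihl V b hb hV p1
    obtain ⟨V2, r2, b1, b2, b3, b4, b5, b6⟩ := ihr V1 (b + (str l).length) hb1 a4 p2
    have hlen : b + (str (node l r)).length = b + (str l).length + (str r).length := by
      change b + (str l ++ str r).length = _
      rw [List.length_append]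
      omega
    have hnot : node l r ∉ V2 := by
      intro hmem
      rcases Finset.mem_union.1 (b2 hmem) with h5 | h5
      · rcases Finset.mem_union.1 (a2 h5) with h6 | h6
        · exact ht h6
        · have := ht_le_of_mem h6
          simp only [Tr.ht] at this
          omega
      · have := ht_le_of_mem h5
        simp only [Tr.ht] at this
        omega
    refine ⟨insert (node l r) V2, r1 + r2, a1.trans (b1.trans (Finset.subset_insert _ _)), ?_,
      Finset.mem_insert_self _ _, ?_, ?_, ?_⟩
    · intro y hy
      simp only [Finset.mem_union, Finset.mem_insert, sub]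
      rcases Finset.mem_insert.1 hy with h5 | h5
      · exact Or.inr (Or.inl h5)
      · rcases Finset.mem_union.1 (b2 h5) with h6 | h6
        · rcases Finset.mem_union.1 (a2 h6) with h7 | h7
          · exact Or.inl h7
          · exact Or.inr (Or.inr (Or.inl h7))
        · exact Or.inr (Or.inr (Or.inr h6))
    · intro v hv
      rcases Finset.mem_insert.1 hv with rfl | hv
      · exact hknown _ b h
      · rw [hlen]; exact b4 v hv
    · rw [hlen]
      exact a5.trans b5
    · rw [Finset.card_insert_of_notMem hnot]
      omega
  | run s x e p ihs ihx ihp =>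
    intro V b hb hV h
    by_cases ht : run s x e p ∈ V
    · exact hin _ V b hb hV h ht
    obtain ⟨p1, p2⟩ := prefix_split (w := str s) (w' := pw (str x) e ++ str p) h
    obtain ⟨p3, p4⟩ := prefix_split p2
    have hb1 : b + (str s).length ≤ T.length := by
      have := p1.length_le
      rw [List.length_drop] at this
      omega
    have hb2 : b + (str s).length + (pw (str x) e).length ≤ T.length := by
      have := p3.length_le
      rw [List.length_drop] at this
      omega
    obtain ⟨V1, r1, a1, a2, a3, a4, a5, a6⟩ := ihs V b hb hV p1
    have hlen : b + (str (run s x e p)).length =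
        b + (str s).length + (pw (str x) e).length + (str p).length := by
      change b + (str s ++ (pw (str x) e ++ str p)).length = _
      rw [List.length_append, List.length_append]
      omega
    -- the middle part
    obtain ⟨V2, r2, b1, b2, b4, b5, b6⟩ : ∃ (V2 : Finset (Tr α)) (r2 : ℕ), V1 ⊆ V2 ∧
        V2 ⊆ V1 ∪ sub x ∧ (∀ v ∈ V2, Known T (b + (str s).length + (pw (str x) e).length) v) ∧
        Path T (b + (str s).length) (b + (str s).length + (pw (str x) e).length) r2 ∧
        r2 + 4 * V1.card ≤ 2 + 4 * V2.card := by
      cases e with
      | zero =>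
        refine ⟨V1, 0, Finset.Subset.refl _, Finset.subset_union_left, ?_, ?_, by omega⟩
        · intro v hv
          exact (a4 v hv).mono (by omega)
        · simpa [pw] using Path.refl _
      | succ e =>
        have q0 : str x ++ pw (str x) e <+: T.drop (b + (str s).length) := p3
        obtain ⟨q1, q2⟩ := prefix_split q0
        obtain ⟨V2, r2, c1, c2, c3, c4, c5, c6⟩ := ihx V1 (b + (str s).length) hb1 a4 q1
        have hl2 : (pw (str x) (e + 1)).length = (str x).length + (pw (str x) e).length := by
          change (str x ++ pw (str x) e).length = _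
          rw [List.length_append]
        rw [hl2] at hb2 ⊢
        have q3 : pw (str x) e <+: T.drop (b + (str s).length) := by
          have : pw (str x) e <+: pw (str x) (e + 1) := by
            rw [pw_succ']
            exact List.prefix_append _ _
          exact this.trans p3
        refine ⟨V2, r2 + 1, c1, c2, ?_, ?_, by omega⟩
        · intro v hv
          exact (c4 v hv).mono (by omega)
        · refine c5.trans (Path.one ?_)
          rw [← add_assoc]
          rcases List.eq_nil_or_concat (str x) with h0 | ⟨_, _, h0⟩
          · have hz : ∀ e, (pw (str x) e).length = 0 := by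
              intro e
              rw [h0]
              induction e with
              | zero => rfl
              | succ e ih => exact ih
            rw [hz e]
            exact ⟨by omega, by omega, Or.inl (by omega)⟩
          · refine good_of_prefix (j := b + (str s).length) ?_ q3 q2 (by omega)
            rw [h0]
            simp
    obtain ⟨V3, r3, c1, c2, c3, c4, c5, c6⟩ :=
      ihp V2 (b + (str s).length + (pw (str x) e).length) hb2 b4 p4
    have hnot : run s x e p ∉ V3 := by
      intro hmem
      rcases Finset.mem_union.1 (c2 hmem) with h5 | h5
      · rcases Finset.mem_union.1 (b2 h5) with h6 | h6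
        · rcases Finset.mem_union.1 (a2 h6) with h7 | h7
          · exact ht h7
          · have := ht_le_of_mem h7
            simp only [Tr.ht] at this
            omega
        · have := ht_le_of_mem h6
          simp only [Tr.ht] at this
          omega
      · have := ht_le_of_mem h5
        simp only [Tr.ht] at this
        omega
    refine ⟨insert (run s x e p) V3, r1 + (r2 + r3),
      a1.trans (b1.trans (c1.trans (Finset.subset_insert _ _))), ?_,
      Finset.mem_insert_self _ _, ?_, ?_, ?_⟩
    · intro y hy
      simp only [Finset.mem_union, Finset.mem_insert, sub]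
      rcases Finset.mem_insert.1 hy with h5 | h5
      · exact Or.inr (Or.inl h5)
      · rcases Finset.mem_union.1 (c2 h5) with h6 | h6
        · rcases Finset.mem_union.1 (b2 h6) with h7 | h7
          · rcases Finset.mem_union.1 (a2 h7) with h8 | h8
            · exact Or.inl h8
            · exact Or.inr (Or.inr (Or.inl h8))
          · exact Or.inr (Or.inr (Or.inr (Or.inl h7)))
        · exact Or.inr (Or.inr (Or.inr (Or.inr h6)))
    · intro v hv
      rcases Finset.mem_insert.1 hv with rfl | hv
      · exact hknown _ b h
      · rw [hlen]; exact c4 v hv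
    · rw [hlen]
      exact a5.trans (b5.trans c5)
    · rw [Finset.card_insert_of_notMem hnot]
      omega

/-! ### the theorem -/

/-- **Theorem.** (1) For every string `S` over an arbitrary alphabet and every `j`, the suffix
`S.drop j` has at most `37 (zs S)^2` factors. (2) There is a constant `c ≥ 1` such that
`zs(S[i..]) ≤ c zs(S)^c` for every string `S` and every `1 ≤ i ≤ |S|`; here
`S[i..] = S.drop (i - 1)`, as positions are counted from `1` in the problem. -/
theorem result :
    (∀ (α : Type) (S : List α) (j : ℕ), zs (S.drop j) ≤ 37 * zs S ^ 2) ∧
    ∃ c : ℕ, 1 ≤ c ∧ ∀ (α : Type) (S : List α) (i : ℕ), 1 ≤ i → i ≤ S.length →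
      zs (S.drop (i - 1)) ≤ c * zs S ^ c := by
  classical
  have main : ∀ (α : Type) (S : List α) (j : ℕ), zs (S.drop j) ≤ 37 * zs S ^ 2 := by
    intro α S j
    rcases Nat.eq_zero_or_pos S.length with h0 | h0
    · have h1 : S.drop j = [] := by
        rw [List.drop_eq_nil_iff]
        omega
      rw [h1]
      unfold zs
      rw [factorsFrom_of_ge (by simp)]
      simp
    · obtain ⟨t, h1, h2, h3⟩ := exists_tree S S.length 0 (by omega) (by omega) Tr.nil 0 rfl
        (by simp [Tr.ht]) (by simp [Tr.sub, bd])
      rw [zero_add] at h2 h3
      change ht t ≤ 2 * zs S at h2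
      change (sub t).card ≤ bd (zs S) at h3
      have hz : 1 ≤ zs S := by
        unfold zs
        rw [factorsFrom_of_lt h0, List.length_cons]
        omega
      obtain ⟨t', N, a1, a2, a3, a4⟩ := exists_suffix t (S.drop j) (by
        rw [h1]
        exact List.drop_suffix _ _)
      obtain ⟨V', r, b1, b2, b3, b4, b5, b6⟩ := cut (S.drop j) t' ∅ 0 (by omega)
        (by simp) (by rw [a1]; simp)
      have hg := greedy b5 (by rw [a1]; simp) 0 le_rfl (by omega)
      change zs (S.drop j) ≤ r at hg
      have e1 : V'.card ≤ (sub t').card := Finset.card_le_card (by simpa using b2)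
      have e2 := Finset.card_le_card a3
      have e3 := Finset.card_union_le (sub t) N
      rw [Finset.card_empty] at b6
      unfold bd at h3
      nlinarith
  refine ⟨main, 37, by norm_num, fun α S i _ _ => (main α S (i - 1)).trans ?_⟩
  rcases Nat.eq_zero_or_pos (zs S) with h0 | h0
  · rw [h0]
    simp
  · exact Nat.mul_le_mul_left _ (Nat.pow_le_pow_right h0 (by norm_num))

end Pool.Agent.Results.MP_37e11d_lc.SuffixSquareBound
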